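import Mathlib

/-!
# MP_87c242_co: 3-neighbour bootstrap percolation on the strong product of two paths

`m₃(1,n) = n`, `m₃(2,n) = ⌊n/2⌋ + 2` for `n ≥ 2`, `m₃(m,n) = 3` for `m, n ≥ 3`.
-/

namespace Pool.Agent.Results.MP_87c242_co.ThreeNeighbour

open Set

variable {V W : Type*}

/-- One round of `r`-neighbour bootstrap percolation. -/
def step (G : SimpleGraph V) (r : ℕ) (A : Set V) : Set V :=
  A ∪ {v | r ≤ {u | u ∈ A ∧ G.Adj v u}.ncard}

/-- The initially infected set `A` fully infects `G`. -/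
def Percolates (G : SimpleGraph V) (r : ℕ) (A : Set V) : Prop :=
  ⋃ t : ℕ, (step G r)^[t] A = univ

/-- The minimum size of a set that fully infects `G`. -/
noncomputable def minPerc (G : SimpleGraph V) (r : ℕ) : ℕ :=
  sInf {k | ∃ A : Finset V, Percolates G r (A : Set V) ∧ A.card = k}

/-- The strong product `P_m ⊠ P_n` of two paths (cells are numbered from `0`). -/
def strongGrid (m n : ℕ) : SimpleGraph (Fin m × Fin n) where
  Adj p q := p ≠ q ∧ (p.1.val ≤ q.1.val + 1 ∧ q.1.val ≤ p.1.val + 1) ∧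
    (p.2.val ≤ q.2.val + 1 ∧ q.2.val ≤ p.2.val + 1)
  symm := ⟨fun _ _ h => ⟨h.1.symm, ⟨h.2.1.2, h.2.1.1⟩, ⟨h.2.2.2, h.2.2.1⟩⟩⟩
  loopless := ⟨fun _ h => h.1 rfl⟩

/-- `m₃(m, n)`. -/
noncomputable def m3 (m n : ℕ) : ℕ := minPerc (strongGrid m n) 3

/-- A set is closed when no further vertex gets infected. -/
def Closed (G : SimpleGraph V) (r : ℕ) (B : Set V) : Prop :=
  ∀ v, r ≤ {u | u ∈ B ∧ G.Adj v u}.ncard → v ∈ B

theorem iterate_mono (G : SimpleGraph V) (r : ℕ) (A : Set V) :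
    Monotone (fun t => (step G r)^[t] A) := by
  apply monotone_nat_of_le_succ
  intro t
  rw [Function.iterate_succ_apply']
  exact subset_union_left

theorem iterate_subset [Finite V] {G : SimpleGraph V} {r : ℕ} {A B : Set V} (hAB : A ⊆ B)
    (hB : Closed G r B) (t : ℕ) : (step G r)^[t] A ⊆ B := by
  induction t with
  | zero => exact hAB
  | succ t ih =>
    rw [Function.iterate_succ_apply']
    rintro v (hv | hv)
    · exact ih hv
    · apply hB
      refine le_trans hv (ncard_le_ncard ?_ (toFinite _))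
      rintro u ⟨h1, h2⟩
      exact ⟨ih h1, h2⟩

theorem closed_iUnion [Finite V] (G : SimpleGraph V) (r : ℕ) (A : Set V) :
    Closed G r (⋃ t : ℕ, (step G r)^[t] A) := by
  intro v hv
  have hfin : {u | u ∈ (⋃ t : ℕ, (step G r)^[t] A) ∧ G.Adj v u}.Finite := toFinite _
  have hex : ∃ t : ℕ, {u | u ∈ (⋃ t : ℕ, (step G r)^[t] A) ∧ G.Adj v u} ⊆ (step G r)^[t] A := by
    have hd : Directed (· ⊆ ·) (fun t : ℕ => (step G r)^[t] A) :=
      (iterate_mono G r A).directed_le
    obtain ⟨t, ht⟩ := DirectedOn.exists_mem_subset_of_finite_of_subset_sUnion (α := V)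
      (c := Set.range (fun t : ℕ => (step G r)^[t] A)) (Set.range_nonempty _)
      (directedOn_range.2 hd) hfin (by
        rintro u ⟨h1, -⟩
        rw [sUnion_range]; exact h1)
    obtain ⟨⟨t', rfl⟩, ht2⟩ := ht
    exact ⟨t', ht2⟩
  obtain ⟨t, ht⟩ := hex
  rw [mem_iUnion]
  refine ⟨t + 1, ?_⟩
  rw [Function.iterate_succ_apply']
  right
  refine le_trans hv (ncard_le_ncard ?_ (toFinite _))
  rintro u ⟨h1, h2⟩
  exact ⟨ht ⟨h1, h2⟩, h2⟩

theorem percolates_iff [Finite V] (G : SimpleGraph V) (r : ℕ) (A : Set V) :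
    Percolates G r A ↔ ∀ B, A ⊆ B → Closed G r B → B = univ := by
  constructor
  · intro h B hAB hB
    rw [← univ_subset_iff, ← h]
    exact iUnion_subset (fun t => iterate_subset hAB hB t)
  · intro h
    exact h _ (fun v hv => mem_iUnion.2 ⟨0, hv⟩) (closed_iUnion G r A)

/-- Transport along a graph isomorphism. -/
theorem closed_preimage {G : SimpleGraph V} {H : SimpleGraph W} (e : G ≃g H) {r : ℕ} {B : Set V}
    (hB : Closed G r B) : Closed H r (e.symm ⁻¹' B) := by
  intro w hw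
  apply hB
  have : {u | u ∈ B ∧ G.Adj (e.symm w) u} = e.symm '' {u | u ∈ e.symm ⁻¹' B ∧ H.Adj w u} := by
    ext u
    constructor
    · rintro ⟨h1, h2⟩
      refine ⟨e u, ⟨by simpa using h1, ?_⟩, by simp⟩
      have := e.map_adj_iff.2 h2
      simpa using this
    · rintro ⟨u', ⟨h1, h2⟩, rfl⟩
      exact ⟨h1, e.symm.map_adj_iff.2 h2⟩
  rw [this, ncard_image_of_injective _ e.symm.injective]
  exact hw

theorem percolates_image [Finite V] [Finite W] {G : SimpleGraph V} {H : SimpleGraph W}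
    (e : G ≃g H) {r : ℕ} {A : Set V} (hA : Percolates G r A) : Percolates H r (e '' A) := by
  rw [percolates_iff] at hA ⊢
  intro B hAB hB
  have h1 := hA (e ⁻¹' B) (fun a ha => hAB ⟨a, ha, rfl⟩) (by
    have := closed_preimage e.symm hB
    exact this)
  ext w
  simp only [mem_univ, iff_true]
  have : e.symm w ∈ e ⁻¹' B := by rw [h1]; trivial
  simpa using this

theorem minPerc_iso [Finite V] [Finite W] {G : SimpleGraph V} {H : SimpleGraph W}
    (e : G ≃g H) (r : ℕ) : minPerc G r = minPerc H r := by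
  unfold minPerc
  congr 1
  ext k
  constructor
  · rintro ⟨A, hA, rfl⟩
    refine ⟨A.map e.toEquiv.toEmbedding, ?_, by simp⟩
    have := percolates_image e hA
    simpa using this
  · rintro ⟨A, hA, rfl⟩
    refine ⟨A.map e.symm.toEquiv.toEmbedding, ?_, by simp⟩
    have := percolates_image e.symm hA
    simpa using this

/-- The symmetry `P_m ⊠ P_n ≅ P_n ⊠ P_m`. -/
def swapIso (m n : ℕ) : strongGrid m n ≃g strongGrid n m where
  toEquiv := Equiv.prodComm _ _
  map_rel_iff' := by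
    rintro ⟨a, b⟩ ⟨c, d⟩
    simp only [strongGrid, Equiv.prodComm_apply, Prod.swap_prod_mk, ne_eq, Prod.mk.injEq]
    tauto

theorem m3_comm (m n : ℕ) : m3 m n = m3 n m := minPerc_iso (swapIso m n) 3

/-- A vertex with three distinct neighbours in a closed set lies in it. -/
theorem mem_of_three [Finite V] {G : SimpleGraph V} {B : Set V} (hB : Closed G 3 B) {v a b c : V}
    (ha : a ∈ B) (hb : b ∈ B) (hc : c ∈ B) (hab : a ≠ b) (hac : a ≠ c) (hbc : b ≠ c)
    (va : G.Adj v a) (vb : G.Adj v b) (vc : G.Adj v c) : v ∈ B := by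
  apply hB
  have h1 : ({a, b, c} : Set V).ncard = 3 := by
    rw [ncard_eq_three]; exact ⟨a, b, c, hab, hac, hbc, rfl⟩
  rw [← h1]
  apply ncard_le_ncard _ (toFinite _)
  rintro u (rfl | rfl | rfl)
  · exact ⟨ha, va⟩
  · exact ⟨hb, vb⟩
  · exact ⟨hc, vc⟩

/-- The rule in coordinates. -/
theorem rule {m n : ℕ} {B : Set (Fin m × Fin n)} (hB : Closed (strongGrid m n) 3 B)
    {i j : ℕ} (hi : i < m) (hj : j < n) (a1 a2 b1 b2 c1 c2 : ℕ)
    (ha1 : a1 < m) (ha2 : a2 < n) (hb1 : b1 < m) (hb2 : b2 < n) (hc1 : c1 < m) (hc2 : c2 < n)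
    (ha : ((⟨a1, ha1⟩, ⟨a2, ha2⟩) : Fin m × Fin n) ∈ B)
    (hb : ((⟨b1, hb1⟩, ⟨b2, hb2⟩) : Fin m × Fin n) ∈ B)
    (hc : ((⟨c1, hc1⟩, ⟨c2, hc2⟩) : Fin m × Fin n) ∈ B)
    (hab : ¬ (a1 = b1 ∧ a2 = b2)) (hac : ¬ (a1 = c1 ∧ a2 = c2)) (hbc : ¬ (b1 = c1 ∧ b2 = c2))
    (va : ¬ (i = a1 ∧ j = a2) ∧ (i ≤ a1 + 1 ∧ a1 ≤ i + 1) ∧ (j ≤ a2 + 1 ∧ a2 ≤ j + 1))
    (vb : ¬ (i = b1 ∧ j = b2) ∧ (i ≤ b1 + 1 ∧ b1 ≤ i + 1) ∧ (j ≤ b2 + 1 ∧ b2 ≤ j + 1))
    (vc : ¬ (i = c1 ∧ j = c2) ∧ (i ≤ c1 + 1 ∧ c1 ≤ i + 1) ∧ (j ≤ c2 + 1 ∧ c2 ≤ j + 1)) :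
    ((⟨i, hi⟩, ⟨j, hj⟩) : Fin m × Fin n) ∈ B := by
  refine mem_of_three hB ha hb hc ?_ ?_ ?_ ⟨?_, va.2⟩ ⟨?_, vb.2⟩ ⟨?_, vc.2⟩
  all_goals
    simp only [ne_eq, Prod.mk.injEq, Fin.mk.injEq]
    first | exact hab | exact hac | exact hbc | exact va.1 | exact vb.1 | exact vc.1

/-- Upper bound for `m, n ≥ 3`: three cells in a corner row suffice. -/
theorem big_percolates {m n : ℕ} (hm : 3 ≤ m) (hn : 3 ≤ n) {B : Set (Fin m × Fin n)}
    (hB : Closed (strongGrid m n) 3 B)
    (h0 : ((⟨0, by omega⟩, ⟨0, by omega⟩) : Fin m × Fin n) ∈ B)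
    (h1 : ((⟨0, by omega⟩, ⟨1, by omega⟩) : Fin m × Fin n) ∈ B)
    (h2 : ((⟨0, by omega⟩, ⟨2, by omega⟩) : Fin m × Fin n) ∈ B) : B = univ := by
  have r11 : ((⟨1, by omega⟩, ⟨1, by omega⟩) : Fin m × Fin n) ∈ B :=
    rule hB _ _ 0 0 0 1 0 2 _ _ _ _ _ _ h0 h1 h2 (by omega) (by omega) (by omega) (by omega)
      (by omega) (by omega)
  have r10 : ((⟨1, by omega⟩, ⟨0, by omega⟩) : Fin m × Fin n) ∈ B :=
    rule hB _ _ 0 0 0 1 1 1 _ _ _ _ _ _ h0 h1 r11 (by omega) (by omega) (by omega) (by omega)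
      (by omega) (by omega)
  have r12 : ((⟨1, by omega⟩, ⟨2, by omega⟩) : Fin m × Fin n) ∈ B :=
    rule hB _ _ 0 2 0 1 1 1 _ _ _ _ _ _ h2 h1 r11 (by omega) (by omega) (by omega) (by omega)
      (by omega) (by omega)
  have r21 : ((⟨2, by omega⟩, ⟨1, by omega⟩) : Fin m × Fin n) ∈ B :=
    rule hB _ _ 1 0 1 1 1 2 _ _ _ _ _ _ r10 r11 r12 (by omega) (by omega) (by omega) (by omega)
      (by omega) (by omega)
  have r20 : ((⟨2, by omega⟩, ⟨0, by omega⟩) : Fin m × Fin n) ∈ B :=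
    rule hB _ _ 1 0 1 1 2 1 _ _ _ _ _ _ r10 r11 r21 (by omega) (by omega) (by omega) (by omega)
      (by omega) (by omega)
  have r22 : ((⟨2, by omega⟩, ⟨2, by omega⟩) : Fin m × Fin n) ∈ B :=
    rule hB _ _ 1 1 1 2 2 1 _ _ _ _ _ _ r11 r12 r21 (by omega) (by omega) (by omega) (by omega)
      (by omega) (by omega)
  -- the first three rows
  have rows : ∀ (j : ℕ) (hj : j < n), ((⟨0, by omega⟩, ⟨j, hj⟩) : Fin m × Fin n) ∈ B ∧
      ((⟨1, by omega⟩, ⟨j, hj⟩) : Fin m × Fin n) ∈ B ∧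
      ((⟨2, by omega⟩, ⟨j, hj⟩) : Fin m × Fin n) ∈ B := by
    intro j
    induction j with
    | zero => exact fun hj => ⟨h0, r10, r20⟩
    | succ j ih =>
      intro hj
      obtain ⟨k0, k1, k2⟩ := ih (by omega)
      have q1 : ((⟨1, by omega⟩, ⟨j + 1, hj⟩) : Fin m × Fin n) ∈ B :=
        rule hB _ _ 0 j 1 j 2 j _ _ _ _ _ _ k0 k1 k2 (by omega) (by omega) (by omega) (by omega)
          (by omega) (by omega)
      have q0 : ((⟨0, by omega⟩, ⟨j + 1, hj⟩) : Fin m × Fin n) ∈ B :=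
        rule hB _ _ 0 j 1 j 1 (j + 1) _ _ _ _ _ _ k0 k1 q1 (by omega) (by omega) (by omega)
          (by omega) (by omega) (by omega)
      have q2 : ((⟨2, by omega⟩, ⟨j + 1, hj⟩) : Fin m × Fin n) ∈ B :=
        rule hB _ _ 1 j 2 j 1 (j + 1) _ _ _ _ _ _ k1 k2 q1 (by omega) (by omega) (by omega)
          (by omega) (by omega) (by omega)
      exact ⟨q0, q1, q2⟩
  have all : ∀ (i : ℕ) (hi : i < m) (j : ℕ) (hj : j < n),
      ((⟨i, hi⟩, ⟨j, hj⟩) : Fin m × Fin n) ∈ B := by
    intro i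
    induction i with
    | zero => exact fun hi j hj => (rows j hj).1
    | succ i ih =>
      intro hi
      have ihi := ih (by omega)
      have q1 : ((⟨i + 1, hi⟩, ⟨1, by omega⟩) : Fin m × Fin n) ∈ B :=
        rule hB _ _ i 0 i 1 i 2 _ _ _ _ _ _ (ihi 0 (by omega)) (ihi 1 (by omega))
          (ihi 2 (by omega)) (by omega) (by omega) (by omega) (by omega) (by omega) (by omega)
      have q0 : ((⟨i + 1, hi⟩, ⟨0, by omega⟩) : Fin m × Fin n) ∈ B :=
        rule hB _ _ i 0 i 1 (i + 1) 1 _ _ _ _ _ _ (ihi 0 (by omega)) (ihi 1 (by omega))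
          q1 (by omega) (by omega) (by omega) (by omega) (by omega) (by omega)
      intro j
      induction j with
      | zero => exact fun _ => q0
      | succ j ihj =>
        intro hj
        exact rule hB _ _ i j i (j + 1) (i + 1) j _ _ _ _ _ _ (ihi j (by omega))
          (ihi (j + 1) (by omega)) (ihj (by omega)) (by omega) (by omega) (by omega) (by omega)
          (by omega) (by omega)
  ext ⟨⟨i, hi⟩, ⟨j, hj⟩⟩
  simp only [mem_univ, iff_true]
  exact all i hi j hj

/-- If every vertex outside `A` has at most two neighbours in `A` then `A` does not grow. -/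
theorem closed_of_card_le [Finite V] {G : SimpleGraph V} (A : Finset V) (hA : A.card ≤ 2) :
    Closed G 3 (A : Set V) := by
  intro v hv
  exfalso
  have h1 : {u | u ∈ (A : Set V) ∧ G.Adj v u}.ncard ≤ (A : Set V).ncard :=
    ncard_le_ncard (fun u hu => hu.1) (toFinite _)
  rw [ncard_coe_finset] at h1
  omega

theorem m3_big {m n : ℕ} (hm : 3 ≤ m) (hn : 3 ≤ n) : m3 m n = 3 := by
  classical
  apply le_antisymm
  · let A : Finset (Fin m × Fin n) :=
      {(⟨0, by omega⟩, ⟨0, by omega⟩), (⟨0, by omega⟩, ⟨1, by omega⟩),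
        (⟨0, by omega⟩, ⟨2, by omega⟩)}
    have hA : A.card = 3 := by
      rw [Finset.card_eq_three]
      exact ⟨_, _, _, by simp, by simp, by simp, rfl⟩
    refine Nat.sInf_le ⟨A, ?_, hA⟩
    rw [percolates_iff]
    intro B hAB hB
    exact big_percolates hm hn hB (hAB (by simp [A])) (hAB (by simp [A])) (hAB (by simp [A]))
  · have hne : {k | ∃ A : Finset (Fin m × Fin n),
        Percolates (strongGrid m n) 3 (A : Set (Fin m × Fin n)) ∧ A.card = k}.Nonempty := by
      refine ⟨_, Finset.univ, ?_, rfl⟩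
      rw [percolates_iff]
      intro B hAB _
      simpa using hAB
    apply le_csInf hne
    rintro k ⟨A, hA, rfl⟩
    by_contra hcon
    have h1 := (percolates_iff _ _ _).1 hA A Subset.rfl (closed_of_card_le A (by omega))
    have h2 : A = Finset.univ := by
      ext x
      simp only [Finset.mem_univ, iff_true]
      rw [← Finset.mem_coe, h1]; trivial
    rw [h2, Finset.card_univ, Fintype.card_prod, Fintype.card_fin, Fintype.card_fin] at hcon
    have : 3 * 3 ≤ m * n := Nat.mul_le_mul hm hn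
    omega

theorem m3_one (n : ℕ) : m3 1 n = n := by
  classical
  have key : ∀ A : Set (Fin 1 × Fin n), Closed (strongGrid 1 n) 3 A := by
    intro A v hv
    exfalso
    have h1 : {u | u ∈ A ∧ (strongGrid 1 n).Adj v u} ⊆
        (fun u => u) '' ({u : Fin 1 × Fin n | u.2.val + 1 = v.2.val} ∪
          {u : Fin 1 × Fin n | u.2.val = v.2.val + 1}) := by
      rintro u ⟨-, h⟩
      rw [image_id']
      have h3 : u.2.val ≠ v.2.val := by
        intro h4
        apply h.1
        exact Prod.ext (Subsingleton.elim _ _) (Fin.ext h4.symm)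
      have h5 := h.2.2
      rcases Nat.lt_or_gt_of_ne h3 with h6 | h6
      · left; show u.2.val + 1 = v.2.val; omega
      · right; show u.2.val = v.2.val + 1; omega
    rw [image_id'] at h1
    have h2 := ncard_le_ncard h1 (toFinite _)
    have h3 := ncard_union_le ({u : Fin 1 × Fin n | u.2.val + 1 = v.2.val})
      ({u : Fin 1 × Fin n | u.2.val = v.2.val + 1})
    have h4 : ({u : Fin 1 × Fin n | u.2.val + 1 = v.2.val}).ncard ≤ 1 := by
      rw [ncard_le_one (toFinite _)]
      intro a ha b hb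
      have ha' : a.2.val + 1 = v.2.val := ha
      have hb' : b.2.val + 1 = v.2.val := hb
      exact Prod.ext (Subsingleton.elim _ _) (Fin.ext (by omega))
    have h5 : ({u : Fin 1 × Fin n | u.2.val = v.2.val + 1}).ncard ≤ 1 := by
      rw [ncard_le_one (toFinite _)]
      intro a ha b hb
      have ha' : a.2.val = v.2.val + 1 := ha
      have hb' : b.2.val = v.2.val + 1 := hb
      exact Prod.ext (Subsingleton.elim _ _) (Fin.ext (by omega))
    omega
  have hset : {k | ∃ A : Finset (Fin 1 × Fin n),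
      Percolates (strongGrid 1 n) 3 (A : Set (Fin 1 × Fin n)) ∧ A.card = k} = {n} := by
    ext k
    constructor
    · rintro ⟨A, hA, rfl⟩
      have h1 := (percolates_iff _ _ _).1 hA A Subset.rfl (key _)
      have h2 : A = Finset.univ := by
        ext x
        simp only [Finset.mem_univ, iff_true]
        rw [← Finset.mem_coe, h1]; trivial
      simp [h2]
    · rintro rfl
      refine ⟨Finset.univ, ?_, by simp⟩
      rw [percolates_iff]
      intro B hAB _
      simpa using hAB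
  unfold m3 minPerc
  rw [hset]
  simp

theorem sum_left (c : ℕ → ℕ) (n : ℕ) (h0 : 1 ≤ c 0) (hp : ∀ j, j + 1 < n → 1 ≤ c j + c (j + 1)) :
    ∀ k, k ≤ n → (k + 1) / 2 ≤ ∑ j ∈ Finset.range k, c j := by
  intro k
  induction k using Nat.twoStepInduction with
  | zero => intro _; simp
  | one => intro _; simpa using h0
  | more k ih _ =>
    intro hk
    rw [Finset.sum_range_succ, Finset.sum_range_succ]
    have h1 := ih (by omega)
    have h2 := hp k (by omega)
    omega

theorem sum_right (c : ℕ → ℕ) (n : ℕ) (hn : 1 ≤ n) (h0 : 1 ≤ c (n - 1))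
    (hp : ∀ j, j + 1 < n → 1 ≤ c j + c (j + 1)) :
    ∀ k, k ≤ n → (k + 1) / 2 ≤ ∑ j ∈ Finset.Ico (n - k) n, c j := by
  intro k
  induction k using Nat.twoStepInduction with
  | zero => intro _; simp
  | one =>
    intro _
    have : Finset.Ico (n - 1) n = {n - 1} := by
      ext x; simp only [Finset.mem_Ico, Finset.mem_singleton]; omega
    rw [this]; simpa using h0
  | more k ih _ =>
    intro hk
    have h1 := ih (by omega)
    have h2 := hp (n - (k + 2)) (by omega)
    rw [Finset.sum_eq_sum_Ico_succ_bot (by omega), Finset.sum_eq_sum_Ico_succ_bot (by omega)]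
    have h3 : n - (k + 2) + 1 + 1 = n - k := by omega
    rw [h3]
    omega

/-- If all outside neighbours of each cell in the columns `S` lie in one column, then some cell
of a percolating set lies in the columns `S`. -/
theorem exists_col {n : ℕ} {A : Set (Fin 2 × Fin n)} (hA : Percolates (strongGrid 2 n) 3 A)
    (S : ℕ → Prop) (j0 : ℕ) (hj0 : j0 < n) (hS0 : S j0)
    (hS : ∀ v : Fin 2 × Fin n, S v.2.val → ∃ j' : ℕ, ∀ u : Fin 2 × Fin n, ¬ S u.2.val →
      (strongGrid 2 n).Adj v u → u.2.val = j') : ∃ a ∈ A, S a.2.val := by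
  by_contra hcon
  push Not at hcon
  have h1 := (percolates_iff _ _ _).1 hA {p | ¬ S p.2.val} (fun a ha => hcon a ha) (by
    intro v hv
    by_contra hvS
    have hvS' : S v.2.val := by
      by_contra h; exact hvS h
    obtain ⟨j', hj'⟩ := hS v hvS'
    have h2 : {u | u ∈ {p : Fin 2 × Fin n | ¬ S p.2.val} ∧ (strongGrid 2 n).Adj v u}.ncard ≤
        (Set.univ : Set (Fin 2)).ncard := by
      refine ncard_le_ncard_of_injOn (fun u => u.1) (fun _ _ => trivial) ?_ (toFinite _)
      rintro ⟨a1, a2⟩ ⟨ha, ha'⟩ ⟨b1, b2⟩ ⟨hb, hb'⟩ hab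
      have e1 := hj' _ ha ha'
      have e2 := hj' _ hb hb'
      refine Prod.ext hab (Fin.ext ?_)
      exact e1.trans e2.symm
    rw [ncard_univ, Nat.card_eq_fintype_card, Fintype.card_fin] at h2
    omega)
  have h2 : ((0, ⟨j0, hj0⟩) : Fin 2 × Fin n) ∈ {p : Fin 2 × Fin n | ¬ S p.2.val} := by
    rw [h1]; trivial
  exact h2 hS0

theorem lower_two {n : ℕ} (hn : 2 ≤ n) (A : Finset (Fin 2 × Fin n))
    (hA : Percolates (strongGrid 2 n) 3 (A : Set (Fin 2 × Fin n))) : n / 2 + 2 ≤ A.card := by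
  classical
  let c : ℕ → ℕ := fun j => (A.filter (fun p => p.2.val = j)).card
  have hc : ∀ j, (∃ a ∈ A, a.2.val = j) → 1 ≤ c j := by
    rintro j ⟨a, ha, haj⟩
    exact Finset.card_pos.2 ⟨a, Finset.mem_filter.2 ⟨ha, haj⟩⟩
  have hsum : ∀ T : Finset ℕ, ∑ j ∈ T, c j = (A.filter (fun p => p.2.val ∈ T)).card := by
    intro T
    rw [Finset.card_eq_sum_card_fiberwise (f := fun p : Fin 2 × Fin n => p.2.val) (t := T)
      (by intro p hp; exact (Finset.mem_filter.1 hp).2)]
    apply Finset.sum_congr rfl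
    intro j hj
    simp only [c]
    congr 1
    ext p
    simp only [Finset.mem_filter]
    constructor
    · rintro ⟨h1, h2⟩; exact ⟨⟨h1, by rw [h2]; exact hj⟩, h2⟩
    · rintro ⟨⟨h1, _⟩, h2⟩; exact ⟨h1, h2⟩
  have htot : A.card = ∑ j ∈ Finset.range n, c j := by
    rw [hsum]
    congr 1
    ext p
    simp only [Finset.mem_filter, Finset.mem_range]
    exact ⟨fun h => ⟨h, p.2.2⟩, fun h => h.1⟩
  by_cases hfull : A = Finset.univ
  · rw [hfull, Finset.card_univ, Fintype.card_prod, Fintype.card_fin, Fintype.card_fin]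
    omega
  have c0 : 1 ≤ c 0 := hc 0 (by
    obtain ⟨a, ha, h⟩ := exists_col hA (fun j => j = 0) 0 (by omega) rfl (by
      intro v hv
      refine ⟨1, fun u hu huv => ?_⟩
      have h2 := huv.2.2
      have hv' : v.2.val = 0 := hv
      have hu' : ¬ u.2.val = 0 := hu
      omega)
    exact ⟨a, ha, h⟩)
  have cn : 1 ≤ c (n - 1) := hc (n - 1) (by
    obtain ⟨a, ha, h⟩ := exists_col hA (fun j => j = n - 1) (n - 1) (by omega) rfl (by
      intro v hv
      refine ⟨n - 2, fun u hu huv => ?_⟩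
      have h2 := huv.2.2
      have hv' : v.2.val = n - 1 := hv
      have hu' : ¬ u.2.val = n - 1 := hu
      have := u.2.2
      omega)
    exact ⟨a, ha, h⟩)
  have cp : ∀ j, j + 1 < n → 1 ≤ c j + c (j + 1) := by
    intro j hj
    obtain ⟨a, ha, h⟩ := exists_col hA (fun i => i = j ∨ i = j + 1) j (by omega) (Or.inl rfl) (by
      rintro v (hv | hv)
      · refine ⟨j - 1, fun u hu huv => ?_⟩
        have h2 := huv.2.2
        have hu' : ¬ (u.2.val = j ∨ u.2.val = j + 1) := hu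
        omega
      · refine ⟨j + 2, fun u hu huv => ?_⟩
        have h2 := huv.2.2
        have hu' : ¬ (u.2.val = j ∨ u.2.val = j + 1) := hu
        omega)
    rcases h with h | h
    · have := hc j ⟨a, ha, h⟩; omega
    · have := hc (j + 1) ⟨a, ha, h⟩; omega
  -- the first newly infected cell
  have hw : ∃ v : Fin 2 × Fin n,
      3 ≤ {u | u ∈ (A : Set (Fin 2 × Fin n)) ∧ (strongGrid 2 n).Adj v u}.ncard := by
    by_contra hcon
    push Not at hcon
    have hcl : Closed (strongGrid 2 n) 3 (A : Set (Fin 2 × Fin n)) := by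
      intro v hv
      have := hcon v
      omega
    have h1 := (percolates_iff _ _ _).1 hA A Subset.rfl hcl
    apply hfull
    ext x
    simp only [Finset.mem_univ, iff_true]
    rw [← Finset.mem_coe, h1]; trivial
  obtain ⟨v, hv⟩ := hw
  have hi := v.2.2
  set i := v.2.val with hidef
  obtain ⟨a, ha⟩ : ∃ a, a = i - 1 := ⟨_, rfl⟩
  obtain ⟨b, hb⟩ : ∃ b, b = min (i + 2) n := ⟨_, rfl⟩
  have hab : a ≤ b := by omega
  have hbn : b ≤ n := by omega
  have hwin : 3 ≤ ∑ j ∈ Finset.Ico a b, c j := by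
    rw [hsum]
    refine le_trans hv ?_
    rw [← ncard_coe_finset]
    apply ncard_le_ncard _ (toFinite _)
    rintro u ⟨hu1, hu2⟩
    rw [Finset.mem_coe, Finset.mem_filter, Finset.mem_Ico]
    have h2 := hu2.2.2
    have h3 := u.2.2
    refine ⟨hu1, ?_, ?_⟩ <;> omega
  have h1 := sum_left c n c0 cp a (by omega)
  have h2 := sum_right c n (by omega) cn cp (n - b) (by omega)
  have h3 : n - (n - b) = b := by omega
  rw [h3] at h2
  have h4 : ∑ j ∈ Finset.range n, c j =
      ∑ j ∈ Finset.range a, c j + ∑ j ∈ Finset.Ico a b, c j + ∑ j ∈ Finset.Ico b n, c j := by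
    rw [Finset.range_eq_Ico, Finset.range_eq_Ico, Finset.sum_Ico_consecutive _ (by omega) hab,
      Finset.sum_Ico_consecutive _ (by omega) hbn]
  rw [htot, h4]
  omega

theorem upper_two {n : ℕ} (hn : 2 ≤ n) : ∃ A : Finset (Fin 2 × Fin n),
    Percolates (strongGrid 2 n) 3 (A : Set (Fin 2 × Fin n)) ∧ A.card ≤ n / 2 + 2 := by
  classical
  let A : Finset (Fin 2 × Fin n) := insert (⟨1, by omega⟩, ⟨0, by omega⟩)
    ((Finset.range (n / 2 + 1)).image
      (fun k => ((⟨0, by omega⟩, ⟨min (2 * k) (n - 1), by omega⟩) : Fin 2 × Fin n)))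
  refine ⟨A, ?_, ?_⟩
  · rw [percolates_iff]
    intro B hAB hB
    have hA0 : ∀ (k : ℕ) (hk : k < n / 2 + 1),
        ((⟨0, by omega⟩, ⟨min (2 * k) (n - 1), by omega⟩) : Fin 2 × Fin n) ∈ B := by
      intro k hk
      apply hAB
      rw [Finset.mem_coe]
      exact Finset.mem_insert_of_mem (Finset.mem_image.2 ⟨k, Finset.mem_range.2 hk, rfl⟩)
    have heven : ∀ (j : ℕ) (hj : j < n), (j % 2 = 0 ∨ j = n - 1) →
        ((⟨0, by omega⟩, ⟨j, hj⟩) : Fin 2 × Fin n) ∈ B := by
      intro j hj h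
      rcases h with h | h
      · have := hA0 (j / 2) (by omega)
        have e : min (2 * (j / 2)) (n - 1) = j := by omega
        simp only [e] at this
        exact this
      · have := hA0 (n / 2) (by omega)
        have e : min (2 * (n / 2)) (n - 1) = j := by omega
        simp only [e] at this
        exact this
    have hB10 : ((⟨1, by omega⟩, ⟨0, by omega⟩) : Fin 2 × Fin n) ∈ B := by
      apply hAB
      rw [Finset.mem_coe]
      exact Finset.mem_insert_self _ _
    have cols : ∀ (j : ℕ) (hj : j < n), ((⟨0, by omega⟩, ⟨j, hj⟩) : Fin 2 × Fin n) ∈ B ∧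
        ((⟨1, by omega⟩, ⟨j, hj⟩) : Fin 2 × Fin n) ∈ B := by
      intro j
      induction j with
      | zero => exact fun hj => ⟨heven 0 hj (Or.inl rfl), hB10⟩
      | succ j ih =>
        intro hj
        obtain ⟨k0, k1⟩ := ih (by omega)
        by_cases h : (j + 1) % 2 = 0 ∨ j + 1 = n - 1
        · have q0 := heven (j + 1) hj h
          exact ⟨q0, rule hB _ _ 0 j 1 j 0 (j + 1) _ _ _ _ _ _ k0 k1 q0 (by omega) (by omega)
            (by omega) (by omega) (by omega) (by omega)⟩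
        · have q2 := heven (j + 2) (by omega) (Or.inl (by omega))
          exact ⟨rule hB _ _ 0 j 1 j 0 (j + 2) _ _ _ _ _ _ k0 k1 q2 (by omega) (by omega)
            (by omega) (by omega) (by omega) (by omega),
            rule hB _ _ 0 j 1 j 0 (j + 2) _ _ _ _ _ _ k0 k1 q2 (by omega) (by omega)
            (by omega) (by omega) (by omega) (by omega)⟩
    ext ⟨⟨i, hi⟩, ⟨j, hj⟩⟩
    simp only [mem_univ, iff_true]
    interval_cases i
    · exact (cols j hj).1
    · exact (cols j hj).2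
  · have h1 := Finset.card_insert_le ((⟨1, by omega⟩, ⟨0, by omega⟩) : Fin 2 × Fin n)
      ((Finset.range (n / 2 + 1)).image
      (fun k => ((⟨0, by omega⟩, ⟨min (2 * k) (n - 1), by omega⟩) : Fin 2 × Fin n)))
    have h2 := Finset.card_image_le (s := Finset.range (n / 2 + 1))
      (f := fun k => ((⟨0, by omega⟩, ⟨min (2 * k) (n - 1), by omega⟩) : Fin 2 × Fin n))
    rw [Finset.card_range] at h2
    exact h1.trans (by omega)

theorem m3_two {n : ℕ} (hn : 2 ≤ n) : m3 2 n = n / 2 + 2 := by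
  obtain ⟨A, hA, hc⟩ := upper_two hn
  have hmem : A.card ∈ {k | ∃ A : Finset (Fin 2 × Fin n),
      Percolates (strongGrid 2 n) 3 (A : Set (Fin 2 × Fin n)) ∧ A.card = k} := ⟨A, hA, rfl⟩
  apply le_antisymm
  · exact (Nat.sInf_le hmem).trans hc
  · apply le_csInf ⟨_, hmem⟩
    rintro k ⟨A', hA', rfl⟩
    exact lower_two hn A' hA'

/-- **Full answer to Q1 of MP_87c242_co.** -/
theorem result (m n : ℕ) (hm : 1 ≤ m) (hn : 1 ≤ n) :
    m3 m n = if m = 1 then n else if n = 1 then m else if m = 2 then n / 2 + 2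
      else if n = 2 then m / 2 + 2 else 3 := by
  split_ifs with h1 h2 h3 h4
  · rw [h1, m3_one]
  · rw [h2, m3_comm, m3_one]
  · rw [h3, m3_two (by omega)]
  · rw [h4, m3_comm, m3_two (by omega)]
  · exact m3_big (by omega) (by omega)

end Pool.Agent.Results.MP_87c242_co.ThreeNeighbour
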